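import Pool.Agent.H66.IQ.TE

/-!
# Row PGP of iq_modules (MP_0f8dca_lc): protocols do not notice a special row
-/

set_option autoImplicit false

namespace Pool.Agent.H12.IQ

open Finset Pool.Agent.H6.NB Pool.Agent.H70.OQ Pool.Agent.H70.EH Pool.Agent.H70.EI
open Pool.Agent.H66.IQ

theorem pgp_val (k : ℕ) (G : Prot k) (O : List Bool → Bool) : 0 ≤ G.val O ∧ G.val O ≤ 1 := by
  induction G with
  | test T =>
    unfold Prot.val
    split_ifs <;> constructor <;> norm_num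
  | coin l r hl hr =>
    unfold Prot.val
    constructor <;> linarith [hl.1, hl.2, hr.1, hr.2]
  | say l r hl hr =>
    unfold Prot.val
    exact ⟨le_max_of_le_left hl.1, max_le hl.2 hr.2⟩

theorem pf_PGP (hEXP : T_EXP) (hTBK : T_TBK) (hFML : Pool.Agent.H70.EI.T_FML) : T_PGP := by
  classical
  intro k
  obtain ⟨n₀, hn₀⟩ := hTBK k
  refine ⟨n₀, fun n hn G hG O hO => ?_⟩
  obtain ⟨K, hK, hT⟩ := hn₀ n hn
  obtain ⟨Ψ, hΨc, hΨs, hΨ⟩ := hEXP k (2 ^ (n / 4)) G hG
  have hf : ∀ c : Machine k × List Bool, ∃ f : (Nn n k → Bool) → Bool, c ∈ Ψ →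
      Fm (2 ^ (2 ^ (n / 4) + 1)) (2 ^ (n / 4) + 1) k f ∧
      ∀ y, (f y = true ↔ c.2 ∈ c.1.lang (O y)) := by
    intro c
    by_cases hc : c ∈ Ψ
    · obtain ⟨f, h1, h2⟩ := hFML (Nn n k) k c.1 O c.2 (2 ^ (n / 4) + 1)
        (Nat.lt_succ_of_le (hΨs c hc)) hO
      exact ⟨f, fun _ => ⟨h1, h2⟩⟩
    · exact ⟨fun _ => true, fun h => absurd h hc⟩
  choose f hf using hf
  set Hd := Hid (Fin n → Bool) (Ys n) k with hHd
  set Bad : Finset Hd := univ.filter fun H => ∃ c ∈ Ψ, K < (senT k (f c) H).card with hBad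
  have hBc : 8 * Bad.card ≤ Fintype.card Hd := by
    have h1 : Bad ⊆ Ψ.biUnion fun c => univ.filter fun H : Hd => K < (senT k (f c) H).card := by
      intro H hH
      rw [hBad, mem_filter] at hH
      obtain ⟨_, c, hc, h⟩ := hH
      rw [mem_biUnion]
      exact ⟨c, hc, mem_filter.2 ⟨mem_univ _, h⟩⟩
    have h2 : Bad.card ≤ ∑ c ∈ Ψ, (univ.filter fun H : Hd => K < (senT k (f c) H).card).card :=
      (card_le_card h1).trans card_biUnion_le
    have h3 : 2 ^ (2 * 2 ^ (n / 4) + 3) *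
        ∑ c ∈ Ψ, (univ.filter fun H : Hd => K < (senT k (f c) H).card).card ≤
        2 ^ (2 * 2 ^ (n / 4)) * Fintype.card Hd := by
      rw [mul_sum]
      calc _ ≤ ∑ _c ∈ Ψ, Fintype.card Hd := sum_le_sum fun c hc => hT (f c) (hf c hc).1
        _ = Ψ.card * Fintype.card Hd := by rw [sum_const, smul_eq_mul]
        _ ≤ _ := Nat.mul_le_mul_right _ hΨc
    have h4 : 2 ^ (2 * 2 ^ (n / 4)) * (8 * Bad.card) ≤ 2 ^ (2 * 2 ^ (n / 4)) * Fintype.card Hd := by
      refine le_trans ?_ h3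
      rw [pow_add]
      calc 2 ^ (2 * 2 ^ (n / 4)) * (8 * Bad.card) = 2 ^ (2 * 2 ^ (n / 4)) * 2 ^ 3 * Bad.card := by
            ring
        _ ≤ _ := Nat.mul_le_mul_left _ h2
    exact Nat.le_of_mul_le_mul_left h4 (by positivity)
  have hcardX : Fintype.card (Fin n → Bool) = 2 ^ n := by simp
  have hbad : ∀ H : Hd, ∑ x : Fin n → Bool, (G.val (O (tabT k H)) - G.val (O (tabU k H x))) ≤
      2 ^ n := by
    intro H
    calc _ ≤ ∑ _x : Fin n → Bool, (1 : ℝ) := sum_le_sum fun x _ => by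
          have h1 := pgp_val k G (O (tabT k H))
          have h2 := pgp_val k G (O (tabU k H x))
          linarith [h1.2, h2.1]
      _ = 2 ^ n := by
          rw [sum_const, card_univ, hcardX, nsmul_eq_mul, mul_one]
          push_cast
          rfl
  have hgood : ∀ H : Hd, H ∉ Bad →
      ∑ x : Fin n → Bool, (G.val (O (tabT k H)) - G.val (O (tabU k H x))) ≤ 2 ^ n / 8 := by
    intro H hH
    obtain ⟨μ, hμ0, hμ1, hμ2⟩ := hΨ (O (tabT k H))
    have h1 : ∀ c ∈ Ψ, (senT k (f c) H).card ≤ K := by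
      intro c hc
      by_contra hlt
      exact hH (by
        rw [hBad, mem_filter]
        exact ⟨mem_univ _, c, hc, not_le.1 hlt⟩)
    have h2 : ∀ c ∈ Ψ, ∑ x : Fin n → Bool, ic (¬ (c.2 ∈ c.1.lang (O (tabT k H)) ↔
        c.2 ∈ c.1.lang (O (tabU k H x)))) = ((senT k (f c) H).card : ℝ) := by
      intro c hc
      have h3 : ∀ x : Fin n → Bool, ic (¬ (c.2 ∈ c.1.lang (O (tabT k H)) ↔
          c.2 ∈ c.1.lang (O (tabU k H x)))) =
          if f c (tabU k H x) ≠ f c (tabT k H) then (1 : ℝ) else 0 := by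
        intro x
        have h4 : (¬ (c.2 ∈ c.1.lang (O (tabT k H)) ↔ c.2 ∈ c.1.lang (O (tabU k H x)))) ↔
            f c (tabU k H x) ≠ f c (tabT k H) := by
          rw [← (hf c hc).2, ← (hf c hc).2]
          cases f c (tabT k H) <;> cases f c (tabU k H x) <;> simp
        unfold ic
        by_cases h5 : f c (tabU k H x) ≠ f c (tabT k H)
        · rw [if_pos h5, if_pos (h4.2 h5)]
        · rw [if_neg h5, if_neg (fun h => h5 (h4.1 h))]
      rw [sum_congr rfl fun x _ => h3 x, sum_boole]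
      rfl
    calc _ ≤ ∑ x : Fin n → Bool, ∑ c ∈ Ψ, μ c * ic (¬ (c.2 ∈ c.1.lang (O (tabT k H)) ↔
          c.2 ∈ c.1.lang (O (tabU k H x)))) := sum_le_sum fun x _ => hμ2 _
      _ = ∑ c ∈ Ψ, μ c * ((senT k (f c) H).card : ℝ) := by
          rw [sum_comm]
          refine sum_congr rfl fun c hc => ?_
          rw [← mul_sum, h2 c hc]
      _ ≤ ∑ c ∈ Ψ, μ c * (K : ℝ) := sum_le_sum fun c hc =>
          mul_le_mul_of_nonneg_left (by exact_mod_cast h1 c hc) (hμ0 c)
      _ = (∑ c ∈ Ψ, μ c) * K := by rw [sum_mul]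
      _ ≤ ((2 ^ (n / 4) : ℕ) : ℝ) * K := mul_le_mul_of_nonneg_right hμ1 (Nat.cast_nonneg _)
      _ ≤ 2 ^ n / 8 := by
          rw [le_div_iff₀ (by norm_num)]
          have h3 : ((8 * (2 ^ (n / 4) * K) : ℕ) : ℝ) ≤ ((2 ^ n : ℕ) : ℝ) := by exact_mod_cast hK
          push_cast at h3 ⊢
          linarith
  rw [Fintype.sum_prod_type]
  have hall : ∀ H : Hd, ∑ x : Fin n → Bool, (G.val (O (tabT k H)) - G.val (O (tabU k H x))) ≤
      2 ^ n / 8 + if H ∈ Bad then 2 ^ n else 0 := by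
    intro H
    split_ifs with h
    · have := hbad H
      have h0 : (0 : ℝ) ≤ 2 ^ n / 8 := by positivity
      linarith
    · rw [add_zero]
      exact hgood H h
  calc _ ≤ ∑ H : Hd, ((2 : ℝ) ^ n / 8 + if H ∈ Bad then 2 ^ n else 0) :=
        sum_le_sum fun H _ => hall H
    _ = Fintype.card Hd * ((2 : ℝ) ^ n / 8) + Bad.card * 2 ^ n := by
        rw [sum_add_distrib, sum_const, card_univ, nsmul_eq_mul, sum_ite_mem, univ_inter,
          sum_const, nsmul_eq_mul]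
    _ ≤ Fintype.card (Hd × (Fin n → Bool)) / 4 := by
        rw [Fintype.card_prod, hcardX]
        have h5 : ((8 * Bad.card : ℕ) : ℝ) ≤ Fintype.card Hd := by exact_mod_cast hBc
        push_cast at h5 ⊢
        have h6 : (0 : ℝ) < 2 ^ n := by positivity
        nlinarith

end Pool.Agent.H12.IQ
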